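import Mathlib
import Pool.Agent.W926.PS.Stm

set_option autoImplicit false

namespace Pool.Agent.W154.PS

open Finset W926.PS

theorem greedy {α : Type} [DecidableEq α] (m N : ℕ) (K : Finset α) (cl : Fin m → α → ℕ)
    (E : Finset (Fin m)) (hK : K.Nonempty)
    (hE : ∀ l, l ∉ E → ∀ c, (K.filter (fun y => cl l y = c)).card * (m * N) < K.card) :
    ∀ i, i ≤ N → ∃ g : Fin i → α, (∀ a, g a ∈ K) ∧
      ∀ a b, a ≠ b → ∀ l, l ∉ E → cl l (g a) ≠ cl l (g b) := by
  intro i
  induction i with
  | zero =>
    intro _
    exact ⟨fun a => a.elim0, fun a => a.elim0, fun a => a.elim0⟩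
  | succ i ih =>
    intro hi
    obtain ⟨g, hg, hgg⟩ := ih (by omega)
    let S : Finset (Fin i × Fin m) := Finset.univ ×ˢ (Finset.univ.filter (fun l => l ∉ E))
    have hScard : S.card ≤ m * N := by
      have h1 : S.card ≤ i * m := by
        simp only [S, Finset.card_product, Finset.card_univ, Fintype.card_fin]
        refine Nat.mul_le_mul_left _ ?_
        refine le_trans (Finset.card_filter_le _ _) ?_
        simp
      calc S.card ≤ i * m := h1
        _ ≤ N * m := Nat.mul_le_mul_right _ (by omega)
        _ = m * N := Nat.mul_comm _ _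
    have hex : ∃ y ∈ K, ∀ e ∈ S, cl e.2 y ≠ cl e.2 (g e.1) := by
      by_contra hno
      push Not at hno
      have hsub : K ⊆ S.biUnion (fun e => K.filter (fun y => cl e.2 y = cl e.2 (g e.1))) := by
        intro y hy
        obtain ⟨e, he, hh⟩ := hno y hy
        rw [Finset.mem_biUnion]
        exact ⟨e, he, Finset.mem_filter.2 ⟨hy, hh⟩⟩
      have h1 : K.card ≤ ∑ e ∈ S, (K.filter (fun y => cl e.2 y = cl e.2 (g e.1))).card :=
        le_trans (Finset.card_le_card hsub) Finset.card_biUnion_le
      have h2 : ∑ e ∈ S, ((K.filter (fun y => cl e.2 y = cl e.2 (g e.1))).card * (m * N) + 1) ≤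
          ∑ _e ∈ S, K.card := by
        refine Finset.sum_le_sum (fun e he => ?_)
        have : e.2 ∉ E := by
          simp only [S, Finset.mem_product, Finset.mem_filter, Finset.mem_univ, true_and] at he
          exact he
        exact hE e.2 this _
      rw [Finset.sum_add_distrib, ← Finset.sum_mul, Finset.sum_const, Finset.sum_const,
        smul_eq_mul, smul_eq_mul, mul_one] at h2
      have h3 := Nat.mul_le_mul_right (m * N) h1
      have h4 : S.card * K.card ≤ m * N * K.card := Nat.mul_le_mul_right _ hScard
      have h5 : S.card = 0 := by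
        have : K.card * (m * N) = m * N * K.card := Nat.mul_comm _ _
        omega
      rw [Finset.card_eq_zero] at h5
      rw [h5] at h1
      simp at h1
      exact hK.ne_empty h1
    obtain ⟨y, hy, hyS⟩ := hex
    refine ⟨Fin.snoc g y, ?_, ?_⟩
    · intro a
      induction a using Fin.lastCases with
      | last => simpa using hy
      | cast a => simpa using hg a
    · intro a b
      induction a using Fin.lastCases with
      | last =>
        induction b using Fin.lastCases with
        | last => intro h; exact absurd rfl h
        | cast b =>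
          intro _ l hl
          simp only [Fin.snoc_last, Fin.snoc_castSucc]
          exact hyS (b, l) (by simp [S, hl])
      | cast a =>
        induction b using Fin.lastCases with
        | last =>
          intro _ l hl
          simp only [Fin.snoc_last, Fin.snoc_castSucc]
          exact (hyS (a, l) (by simp [S, hl])).symm
        | cast b =>
          intro hab l hl
          simp only [Fin.snoc_castSucc]
          exact hgg a b (fun h => hab (by rw [h])) l hl

theorem reg : S_REG := by
  intro α _ _ m q N Q n W K cl hn hW H hQ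
  have key : ∀ j, j ≤ q + 1 →
      (∃ (E : Finset (Fin m)) (K' : Finset α), E.card ≤ q ∧ K' ⊆ K ∧ K'.Nonempty ∧
        ∀ l, l ∉ E → ∀ c, (K'.filter (fun y => cl l y = c)).card * (m * N) < K'.card) ∨
      (∃ (E : Finset (Fin m)) (K' : Finset α), E.card = j ∧ K' ⊆ K ∧ K'.Nonempty ∧
        (∀ x ∈ K', ∀ y ∈ K', ∀ l ∈ E, cl l y = cl l x) ∧ n ≤ W * K'.card * (m * N) ^ j) := by
    intro j
    induction j with
    | zero =>
      intro _
      right
      refine ⟨∅, K, by simp, Finset.Subset.refl _, ?_, by simp, by simpa using hW⟩
      rw [Finset.nonempty_iff_ne_empty]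
      rintro rfl
      simp at hW
      omega
    | succ j ih =>
      intro hj
      rcases ih (by omega) with h | ⟨E, K', hE, hK', hne, hsame, hcard⟩
      · exact Or.inl h
      · by_cases hall : ∀ l, l ∉ E → ∀ c, (K'.filter (fun y => cl l y = c)).card * (m * N) < K'.card
        · exact Or.inl ⟨E, K', by omega, hK', hne, hall⟩
        · push Not at hall
          obtain ⟨l, hl, c, hc⟩ := hall
          right
          refine ⟨insert l E, K'.filter (fun y => cl l y = c), ?_, ?_, ?_, ?_, ?_⟩
          · rw [Finset.card_insert_of_notMem hl, hE]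
          · exact (Finset.filter_subset _ _).trans hK'
          · rw [Finset.nonempty_iff_ne_empty]
            intro h0
            rw [h0] at hc
            simp at hc
            exact hne.ne_empty hc
          · intro x hx y hy l' hl'
            rw [Finset.mem_filter] at hx hy
            rcases Finset.mem_insert.1 hl' with rfl | h
            · rw [hx.2, hy.2]
            · exact hsame x hx.1 y hy.1 l' h
          · calc n ≤ W * K'.card * (m * N) ^ j := hcard
              _ ≤ W * ((K'.filter (fun y => cl l y = c)).card * (m * N)) * (m * N) ^ j :=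
                Nat.mul_le_mul_right _ (Nat.mul_le_mul_left _ hc)
              _ = W * (K'.filter (fun y => cl l y = c)).card * (m * N) ^ (j + 1) := by ring
  rcases key (q + 1) le_rfl with ⟨E, K', hE, hK', hne, hall⟩ | ⟨E, K', hE, hK', hne, hsame, hcard⟩
  · obtain ⟨g, hg, hgg⟩ := greedy m N K' cl E hne hall N le_rfl
    exact ⟨E, g, hE, fun i => hK' (hg i), hgg⟩
  · exfalso
    obtain ⟨x, hx⟩ := hne
    have h1 : K' ⊆ K.filter (fun y => ∀ l ∈ E, cl l y = cl l x) := by
      intro y hy
      exact Finset.mem_filter.2 ⟨hK' hy, hsame x hx y hy⟩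
    have h2 := H x (hK' hx) E hE
    have h3 : K'.card * Q ^ (q + 1) ≤ n :=
      le_trans (Nat.mul_le_mul_right _ (Finset.card_le_card h1)) h2
    have hpos : 0 < K'.card := Finset.card_pos.2 ⟨x, hx⟩
    have h4 : K'.card * (W * (m * N) ^ (q + 1)) < K'.card * Q ^ (q + 1) :=
      Nat.mul_lt_mul_of_pos_left hQ hpos
    have h5 : W * K'.card * (m * N) ^ (q + 1) = K'.card * (W * (m * N) ^ (q + 1)) := by ring
    omega

end Pool.Agent.W154.PS
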